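import Pool.Agent.Helper86.W4.Wval

/-!
# W4, part SOUND: the class of a diagonal form is zero iff the form is metabolic
-/

set_option autoImplicit false

namespace Pool.Agent.Helper86.W4

open Pool.Agent.Helper40.W4 Module

variable {K : Type} [Field K]

/-! ### The diagonal bilinear form -/

/-- The diagonal bilinear form. -/
noncomputable def dB {ι : Type} [Fintype ι] (a : ι → Kˣ) : LinearMap.BilinForm K (ι → K) :=
  LinearMap.mk₂ K (fun x y => ∑ i, (a i : K) * x i * y i)
    (fun x x' y => by
      rw [← Finset.sum_add_distrib]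
      exact Finset.sum_congr rfl fun i _ => by simp only [Pi.add_apply]; ring)
    (fun c x y => by
      rw [smul_eq_mul, Finset.mul_sum]
      exact Finset.sum_congr rfl fun i _ => by simp only [Pi.smul_apply, smul_eq_mul]; ring)
    (fun x y y' => by
      rw [← Finset.sum_add_distrib]
      exact Finset.sum_congr rfl fun i _ => by simp only [Pi.add_apply]; ring)
    (fun c x y => by
      rw [smul_eq_mul, Finset.mul_sum]
      exact Finset.sum_congr rfl fun i _ => by simp only [Pi.smul_apply, smul_eq_mul]; ring)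

lemma dB_apply {ι : Type} [Fintype ι] (a : ι → Kˣ) (x y : ι → K) :
    dB a x y = ∑ i, (a i : K) * x i * y i := rfl

lemma dB_comm {ι : Type} [Fintype ι] (a : ι → Kˣ) (x y : ι → K) : dB a x y = dB a y x := by
  simp only [dB_apply]
  exact Finset.sum_congr rfl fun i _ => by ring

lemma dB_self {ι : Type} [Fintype ι] (a : ι → Kˣ) (x : ι → K) :
    dB a x x = ∑ i, (a i : K) * x i ^ 2 := by
  simp only [dB_apply]
  exact Finset.sum_congr rfl fun i _ => by ring

lemma dB_single {ι : Type} [Fintype ι] [DecidableEq ι] (a : ι → Kˣ) (x : ι → K) (i : ι) :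
    dB a x (Pi.single i 1) = a i * x i := by
  rw [dB_apply, Finset.sum_eq_single i]
  · simp
  · intro j _ hj
    rw [Pi.single_eq_of_ne hj, mul_zero]
  · simp

lemma dB_nondeg {ι : Type} [Fintype ι] (a : ι → Kˣ) : (dB a).Nondegenerate := by
  classical
  have key : ∀ x : ι → K, (∀ y, dB a x y = 0) → x = 0 := by
    intro x hx
    funext i
    have := hx (Pi.single i 1)
    rw [dB_single] at this
    exact (mul_eq_zero.1 this).resolve_left (a i).ne_zero
  exact ⟨key, fun y hy => key y fun x => by rw [dB_comm]; exact hy x⟩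

/-- A totally isotropic subspace of at least half the dimension. -/
def Met {ι : Type} [Fintype ι] (a : ι → Kˣ) : Prop :=
  ∃ U : Submodule K (ι → K), (∀ x ∈ U, ∑ i, (a i : K) * x i ^ 2 = 0) ∧
    Fintype.card ι ≤ 2 * finrank K U

lemma isotropic_bilin [CharZero K] {ι : Type} [Fintype ι] (a : ι → Kˣ)
    (U : Submodule K (ι → K)) (hU : ∀ x ∈ U, ∑ i, (a i : K) * x i ^ 2 = 0) :
    ∀ x ∈ U, ∀ y ∈ U, dB a x y = 0 := by
  intro x hx y hy
  have h1 := hU _ (U.add_mem hx hy)
  rw [← dB_self, map_add, map_add, LinearMap.add_apply, LinearMap.add_apply] at h1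
  have h2 := hU _ hx
  have h3 := hU _ hy
  rw [← dB_self] at h2 h3
  rw [h2, h3, dB_comm a y x, zero_add, add_zero] at h1
  have h4 : (2 : K) * dB a x y = 0 := by rw [two_mul]; exact h1
  exact (mul_eq_zero.1 h4).resolve_left two_ne_zero

lemma isotropic_le [CharZero K] {ι : Type} [Fintype ι] (a : ι → Kˣ)
    (U : Submodule K (ι → K)) (hU : ∀ x ∈ U, ∑ i, (a i : K) * x i ^ 2 = 0) :
    2 * finrank K U ≤ Fintype.card ι := by
  have h1 : U ≤ (dB a).orthogonal U := fun x hx n hn => isotropic_bilin a U hU n hn x hx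
  have h2 := Submodule.finrank_mono h1
  rw [LinearMap.BilinForm.finrank_orthogonal (dB_nondeg a)] at h2
  have h3 := Submodule.finrank_le U
  rw [Module.finrank_fintype_fun_eq_card] at h2 h3
  omega

lemma met_iff_metab [CharZero K] {n : ℕ} (a : Fin n → Kˣ) :
    Met a ↔ Metab (fun i => (a i : K)) := by
  constructor
  · rintro ⟨U, hU, h⟩
    have := isotropic_le a U hU
    rw [Fintype.card_fin] at h this
    exact ⟨U, hU, by omega⟩
  · rintro ⟨U, hU, h⟩
    exact ⟨U, hU, by rw [Fintype.card_fin, h]⟩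

/-- Metabolic forms from an injective linear map. -/
lemma met_of_inj {ι κ : Type} [Fintype ι] [Fintype κ] (a : ι → Kˣ) (f : (κ → K) →ₗ[K] (ι → K))
    (hf : Function.Injective f) (h : ∀ x, ∑ i, (a i : K) * f x i ^ 2 = 0)
    (hc : Fintype.card ι ≤ 2 * Fintype.card κ) : Met a := by
  refine ⟨LinearMap.range f, ?_, ?_⟩
  · rintro x ⟨y, rfl⟩
    exact h y
  · rw [LinearMap.finrank_range_of_inj hf, Module.finrank_fintype_fun_eq_card]
    exact hc

lemma Met.of_equiv {ι κ : Type} [Fintype ι] [Fintype κ] (e : ι ≃ κ) {a : κ → Kˣ}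
    (h : Met (fun i => a (e i))) : Met a := by
  obtain ⟨U, hU, hc⟩ := h
  refine ⟨U.map (LinearEquiv.funCongrLeft K K e.symm : (ι → K) ≃ₗ[K] (κ → K)).toLinearMap,
    ?_, ?_⟩
  · rintro _ ⟨x, hx, rfl⟩
    rw [← hU x hx, ← Equiv.sum_comp e]
    refine Finset.sum_congr rfl fun i _ => ?_
    simp [LinearEquiv.funCongrLeft_apply, LinearMap.funLeft_apply]
  · rw [LinearEquiv.finrank_map_eq, ← Fintype.card_congr e]
    exact hc

lemma Met.congr {ι : Type} [Fintype ι] {a b : ι → Kˣ} (h : Met a)
    (hab : ∀ i, a i = b i) : Met b := by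
  have : a = b := funext hab
  rwa [← this]

lemma Met.scale {ι : Type} [Fintype ι] (c : Kˣ) {a : ι → Kˣ}
    (h : Met a) : Met (fun i => c * a i) := by
  obtain ⟨U, hU, hc⟩ := h
  refine ⟨U, fun x hx => ?_, hc⟩
  have := congrArg (fun t => (c : K) * t) (hU x hx)
  simp only [mul_zero, Finset.mul_sum] at this
  rw [← this]
  exact Finset.sum_congr rfl fun i _ => by push_cast; ring

lemma Met.neg {ι : Type} [Fintype ι] {a : ι → Kˣ}
    (h : Met a) : Met (fun i => -a i) := by
  refine (h.scale (-1)).congr fun i => ?_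
  simp

lemma Met.hyp {ι : Type} [Fintype ι] (a : ι → Kˣ) : Met (Sum.elim a (fun i => -a i)) := by
  refine met_of_inj (κ := ι) _
    { toFun := fun x => Sum.elim x x
      map_add' := fun x y => by funext i; rcases i with i | i <;> rfl
      map_smul' := fun c x => by funext i; rcases i with i | i <;> rfl } ?_ ?_ ?_
  · intro x y h
    funext i
    exact congrFun h (Sum.inl i)
  · intro x
    simp [Fintype.sum_sum_type]
  · simp [Fintype.card_sum, two_mul]

lemma Met.sum {ι κ : Type} [Fintype ι] [Fintype κ] {a : ι → Kˣ} {b : κ → Kˣ}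
    (ha : Met a) (hb : Met b) : Met (Sum.elim a b) := by
  obtain ⟨U, hU, hU'⟩ := ha
  obtain ⟨V, hV, hV'⟩ := hb
  let f : (U × V) →ₗ[K] (ι ⊕ κ → K) :=
    { toFun := fun p => Sum.elim (p.1 : ι → K) (p.2 : κ → K)
      map_add' := fun x y => by funext i; rcases i with i | i <;> rfl
      map_smul' := fun c x => by funext i; rcases i with i | i <;> rfl }
  have hf : Function.Injective f := by
    rintro ⟨x, y⟩ ⟨x', y'⟩ h
    have h1 : x = x' := Subtype.ext (funext fun i => congrFun h (Sum.inl i))
    have h2 : y = y' := Subtype.ext (funext fun i => congrFun h (Sum.inr i))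
    rw [h1, h2]
  refine ⟨LinearMap.range f, ?_, ?_⟩
  · rintro _ ⟨⟨⟨x, hx⟩, ⟨y, hy⟩⟩, rfl⟩
    have h1 := hU x hx
    have h2 := hV y hy
    simp [f, Fintype.sum_sum_type, h1, h2]
  · rw [LinearMap.finrank_range_of_inj hf, Module.finrank_prod, Fintype.card_sum]
    omega

/-- Cancellation of metabolic forms. -/
lemma Met.cancel [CharZero K] {ι κ : Type} [Fintype ι] [Fintype κ] {a : ι → Kˣ} {b : κ → Kˣ}
    (h : Met (Sum.elim a b)) (hb : Met b) : Met a := by
  obtain ⟨U, hU, hUc⟩ := h
  obtain ⟨L, hL, hLc⟩ := hb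
  set c : ι ⊕ κ → Kˣ := Sum.elim a b with hc
  -- the orthogonal complement of `U` is `U`, that of `L` is `L`
  have hUle : U ≤ (dB c).orthogonal U := fun x hx n hn => isotropic_bilin c U hU n hn x hx
  have hUfin := LinearMap.BilinForm.finrank_orthogonal (dB_nondeg c) U
  rw [Module.finrank_fintype_fun_eq_card, Fintype.card_sum] at hUfin
  rw [Fintype.card_sum] at hUc
  have hUorth : (dB c).orthogonal U = U := by
    refine (Submodule.eq_of_le_of_finrank_le hUle ?_).symm
    omega
  have hLle : L ≤ (dB b).orthogonal L := fun x hx n hn => isotropic_bilin b L hL n hn x hx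
  have hLfin := LinearMap.BilinForm.finrank_orthogonal (dB_nondeg b) L
  rw [Module.finrank_fintype_fun_eq_card] at hLfin
  have hLorth : (dB b).orthogonal L = L := by
    refine (Submodule.eq_of_le_of_finrank_le hLle ?_).symm
    omega
  have hU2 := isotropic_le c U hU
  have hL2 := isotropic_le b L hL
  rw [Fintype.card_sum] at hU2
  -- the subspace `0 × L`
  let inr : (κ → K) →ₗ[K] (ι ⊕ κ → K) :=
    { toFun := fun y => Sum.elim (0 : ι → K) y
      map_add' := fun x y => by funext i; rcases i with i | i <;> simp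
      map_smul' := fun c x => by funext i; rcases i with i | i <;> simp }
  have hinr : Function.Injective inr := by
    intro x y h
    funext i
    exact congrFun h (Sum.inr i)
  let fst : (ι ⊕ κ → K) →ₗ[K] (ι → K) :=
    { toFun := fun x i => x (Sum.inl i)
      map_add' := fun x y => rfl
      map_smul' := fun c x => rfl }
  set W : Submodule K (ι ⊕ κ → K) := L.map inr with hW
  have hWfin : finrank K W = finrank K L :=
    (LinearEquiv.finrank_eq (Submodule.equivMapOfInjective inr hinr L)).symm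
  set S := (dB c).orthogonal (U ⊔ W) with hS
  have hSfin := LinearMap.BilinForm.finrank_orthogonal (dB_nondeg c) (U ⊔ W)
  rw [Module.finrank_fintype_fun_eq_card, Fintype.card_sum, ← hS] at hSfin
  have hsup := Submodule.finrank_sup_add_finrank_inf_eq U W
  have hSU : ∀ x ∈ S, x ∈ U := by
    intro x hx
    rw [← hUorth]
    exact fun n hn => hx n (Submodule.mem_sup_left hn)
  have hSL : ∀ x ∈ S, (fun j => x (Sum.inr j)) ∈ L := by
    intro x hx
    rw [← hLorth]
    intro n hn
    have := hx (inr n) (Submodule.mem_sup_right ⟨n, hn, rfl⟩)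
    rw [dB_apply, Fintype.sum_sum_type] at this
    rw [dB_apply]
    simpa [inr, hc] using this
  refine ⟨S.map fst, ?_, ?_⟩
  · rintro _ ⟨x, hx, rfl⟩
    have h1 := hU x (hSU x hx)
    have h2 := hL _ (hSL x hx)
    rw [Fintype.sum_sum_type] at h1
    simp only [hc, Sum.elim_inl, Sum.elim_inr] at h1
    rw [h2, add_zero] at h1
    exact h1
  · have h1 := LinearMap.finrank_range_add_finrank_ker (fst.domRestrict S)
    have h2 : LinearMap.range (fst.domRestrict S) = S.map fst := by
      ext x
      constructor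
      · rintro ⟨⟨y, hy⟩, rfl⟩
        exact ⟨y, hy, rfl⟩
      · rintro ⟨y, hy, rfl⟩
        exact ⟨⟨y, hy⟩, rfl⟩
    have h3 : finrank K (LinearMap.ker (fst.domRestrict S)) ≤ finrank K (U ⊓ W : Submodule K _) := by
      let g : LinearMap.ker (fst.domRestrict S) →ₗ[K] (ι ⊕ κ → K) :=
        S.subtype ∘ₗ (LinearMap.ker (fst.domRestrict S)).subtype
      have hg : Function.Injective g :=
        S.subtype_injective.comp (Submodule.subtype_injective _)
      rw [← LinearMap.finrank_range_of_inj hg]
      refine Submodule.finrank_mono ?_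
      rintro _ ⟨⟨⟨x, hx⟩, hx'⟩, rfl⟩
      refine ⟨hSU x hx, ⟨fun j => x (Sum.inr j), hSL x hx, ?_⟩⟩
      have hx0 : fst x = 0 := hx'
      funext i
      rcases i with i | i
      · exact (congrFun hx0 i).symm
      · rfl
    rw [h2] at h1
    omega

/-! ### The ideal of metabolic differences -/

lemma met_empty (a : Fin 0 → Kˣ) : Met a := ⟨⊥, by simp, by simp⟩

/-- Differences of families that are Witt equivalent. -/
def TSet (K : Type) [Field K] : Set (MonoidAlgebra ℤ Kˣ) :=
  {x | ∃ (ι κ : Type) (_ : Fintype ι) (_ : Fintype κ) (a : ι → Kˣ) (b : κ → Kˣ),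
    x = ∑ i, gen (a i) - ∑ j, gen (b j) ∧ Met (Sum.elim a (fun j => -b j))}

lemma TSet_zero : (0 : MonoidAlgebra ℤ Kˣ) ∈ TSet K := by
  refine ⟨Fin 0, Fin 0, inferInstance, inferInstance, Fin.elim0, Fin.elim0, by simp, ?_⟩
  exact (met_empty _).sum (met_empty _)

lemma TSet_add {x y : MonoidAlgebra ℤ Kˣ} (hx : x ∈ TSet K) (hy : y ∈ TSet K) :
    x + y ∈ TSet K := by
  obtain ⟨ι, κ, _, _, a, b, rfl, h⟩ := hx
  obtain ⟨ι', κ', _, _, a', b', rfl, h'⟩ := hy
  refine ⟨ι ⊕ ι', κ ⊕ κ', inferInstance, inferInstance, Sum.elim a a', Sum.elim b b', ?_, ?_⟩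
  · simp only [Fintype.sum_sum_type, Sum.elim_inl, Sum.elim_inr]
    abel
  · refine Met.of_equiv (Equiv.sumSumSumComm ι κ ι' κ') ((h.sum h').congr ?_)
    rintro ((i | i) | (i | i)) <;> rfl

lemma TSet_neg {x : MonoidAlgebra ℤ Kˣ} (hx : x ∈ TSet K) : -x ∈ TSet K := by
  obtain ⟨ι, κ, _, _, a, b, rfl, h⟩ := hx
  refine ⟨κ, ι, inferInstance, inferInstance, b, a, by abel, ?_⟩
  refine Met.of_equiv (Equiv.sumComm ι κ) (h.neg.congr ?_)
  rintro (i | i) <;> simp

lemma TSet_mul (r : MonoidAlgebra ℤ Kˣ) : ∀ x ∈ TSet K, r * x ∈ TSet K := by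
  induction r using MonoidAlgebra.induction_on with
  | of g =>
    rintro x ⟨ι, κ, _, _, a, b, rfl, h⟩
    refine ⟨ι, κ, inferInstance, inferInstance, fun i => g * a i, fun j => g * b j, ?_, ?_⟩
    · simp only [gen_mul, mul_sub, Finset.mul_sum]
      rfl
    · refine (h.scale g).congr ?_
      rintro (i | i) <;> simp
  | add f g hf hg =>
    intro x hx
    rw [add_mul]
    exact TSet_add (hf x hx) (hg x hx)
  | smul r f hf =>
    intro x hx
    rw [smul_mul_assoc]
    induction r using Int.induction_on with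
    | zero => rw [zero_smul]; exact TSet_zero
    | succ i ih => rw [add_smul, one_smul]; exact TSet_add ih (hf x hx)
    | pred i ih =>
      rw [sub_smul, one_smul, sub_eq_add_neg]
      exact TSet_add ih (TSet_neg (hf x hx))

lemma relSet_subset : relSet K ⊆ TSet K := by
  rintro x ((⟨a, b, rfl⟩ | ⟨a, rfl⟩) | ⟨a, b, c, h, rfl⟩)
  · refine ⟨Unit, Unit, inferInstance, inferInstance, fun _ => a * b ^ 2, fun _ => a,
      by simp, ?_⟩
    refine met_of_inj (κ := Unit) _
      { toFun := fun x => Sum.elim x (fun i => (b : K) * x i)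
        map_add' := fun x y => by
          funext i; rcases i with i | i
          · rfl
          · simp [mul_add]
        map_smul' := fun c x => by
          funext i; rcases i with i | i
          · rfl
          · simp [mul_left_comm] } ?_ ?_ ?_
    · intro x y h
      funext i
      exact congrFun h (Sum.inl i)
    · intro x
      simp [Fintype.sum_sum_type]
      ring
    · simp [Fintype.card_sum]
  · refine ⟨Unit ⊕ Unit, Fin 0, inferInstance, inferInstance,
      Sum.elim (fun _ => a) (fun _ => -a), Fin.elim0, by simp, ?_⟩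
    exact (Met.hyp (fun _ : Unit => a)).sum (met_empty _)
  · refine ⟨Fin 2, Fin 2, inferInstance, inferInstance, ![a, b], ![c, a * b * c],
      by simp [Fin.sum_univ_two], ?_⟩
    refine met_of_inj (κ := Fin 2) _
      { toFun := fun x => Sum.elim ![x 0 + (b : K) * x 1, x 0 - (a : K) * x 1] x
        map_add' := fun x y => by
          funext i; rcases i with i | i
          · fin_cases i
            · simp; ring
            · simp; ring
          · rfl
        map_smul' := fun c x => by
          funext i; rcases i with i | i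
          · fin_cases i
            · simp; ring
            · simp; ring
          · rfl } ?_ ?_ ?_
    · intro x y h
      funext i
      exact congrFun h (Sum.inr i)
    · intro x
      simp [Fintype.sum_sum_type, Fin.sum_univ_two]
      rw [← h]
      ring
    · simp [Fintype.card_sum]

lemma relIdeal_le {x : MonoidAlgebra ℤ Kˣ} (hx : x ∈ relIdeal K) : x ∈ TSet K := by
  refine Submodule.span_induction (p := fun x _ => x ∈ TSet K) ?_ ?_ ?_ ?_ hx
  · exact fun x hx => relSet_subset hx
  · exact TSet_zero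
  · exact fun x y _ _ hx hy => TSet_add hx hy
  · exact fun r x _ hx => TSet_mul r x hx

lemma coeff_sum_gen {X : Type} [Fintype X] (f : X → Kˣ) (c : Kˣ) :
    (∑ i, gen (f i)).coeff c = (Nat.card {i // f i = c} : ℤ) := by
  classical
  rw [MonoidAlgebra.coeff_sum, Finsupp.finsetSum_apply, Nat.card_eq_fintype_card,
    Fintype.card_subtype]
  simp only [gen, MonoidAlgebra.of_apply, MonoidAlgebra.coeff_single, Finsupp.single_apply]
  simp

/-- Families with the same formal sum differ by a bijection. -/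
lemma exists_equiv {X Y : Type} [Fintype X] [Fintype Y] (f : X → Kˣ) (g : Y → Kˣ)
    (h : ∑ i, gen (f i) = ∑ j, gen (g j)) : ∃ e : X ≃ Y, ∀ x, g (e x) = f x := by
  classical
  have hcard : ∀ c, Fintype.card {i // f i = c} = Fintype.card {j // g j = c} := by
    intro c
    have h1 := coeff_sum_gen f c
    rw [h, coeff_sum_gen g c] at h1
    rw [← Nat.card_eq_fintype_card, ← Nat.card_eq_fintype_card]
    exact_mod_cast h1.symm
  let e : ∀ c, {i // f i = c} ≃ {j // g j = c} := fun c => Fintype.equivOfCardEq (hcard c)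
  refine ⟨(Equiv.sigmaFiberEquiv f).symm.trans
    ((Equiv.sigmaCongrRight e).trans (Equiv.sigmaFiberEquiv g)), fun x => ?_⟩
  exact (e (f x) ⟨x, rfl⟩).2

lemma cl_eq_mk {n : ℕ} (a : Fin n → Kˣ) :
    cl a = Ideal.Quotient.mk (relIdeal K) (∑ i, gen (a i)) := by
  rw [map_sum]
  rfl

lemma met_of_cl [CharZero K] {n : ℕ} (a : Fin n → Kˣ) (h : cl a = 0) : Met a := by
  rw [cl_eq_mk] at h
  have h1 := Ideal.Quotient.eq_zero_iff_mem.1 h
  obtain ⟨ι, κ, _, _, a', b', h2, h3⟩ := relIdeal_le h1
  obtain ⟨e, he⟩ := exists_equiv (Sum.elim a b') a' (by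
    rw [Fintype.sum_sum_type]
    simp only [Sum.elim_inl, Sum.elim_inr]
    rw [h2]
    abel)
  have h4 : Met (Sum.elim (Sum.elim a b') (fun j => -b' j)) := by
    refine Met.of_equiv ((Equiv.sumCongr e (Equiv.refl κ)).symm) (h3.congr ?_)
    rintro (i | i)
    · have := he (e.symm i)
      rw [Equiv.apply_symm_apply] at this
      simpa using this
    · rfl
  have h5 : Met (Sum.elim a (Sum.elim b' (fun j => -b' j))) := by
    refine Met.of_equiv (Equiv.sumAssoc _ _ _) (h4.congr ?_)
    rintro ((i | i) | i) <;> rfl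
  exact h5.cancel (Met.hyp b')

lemma cl_of_metab [CharZero K] : ∀ (n : ℕ) (a : Fin n → Kˣ), Metab (fun i => (a i : K)) →
    cl a = 0 := by
  intro n
  induction n using Nat.strong_induction_on with
  | _ n ih =>
  intro a h
  rcases Nat.eq_zero_or_pos n with rfl | hn
  · simp [cl]
  have hM := (met_iff_metab a).2 h
  obtain ⟨U, hU, hc⟩ := h
  have hU0 : U ≠ ⊥ := by
    rintro rfl
    rw [finrank_bot] at hc
    omega
  obtain ⟨x, hx, hx0⟩ := Submodule.exists_mem_ne_zero_of_ne_bot hU0
  obtain ⟨m, b, hm, hb⟩ := (wval_thm K).2.2 n a ⟨x, hx0, hU x hx⟩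
  rw [hb]
  refine ih m (by omega) b ?_
  -- `a ++ -b` is metabolic
  have h1 : cl (Fin.append a (fun i => -b i)) = 0 := by
    rw [cl_append, cl_neg, hb, add_neg_cancel]
  have h2 := met_of_cl _ h1
  have h3 : Met (Sum.elim (fun i => -b i) a) := by
    refine Met.of_equiv (((Equiv.sumComm _ _).trans finSumFinEquiv).symm) (h2.congr ?_)
    intro i
    refine Fin.addCases (fun i => ?_) (fun i => ?_) i <;> simp
  have h4 := (h3.cancel hM).neg
  simp only [neg_neg] at h4
  exact (met_iff_metab b).1 h4

theorem sound_thm : S_SOUND := by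
  intro K _ _
  refine ⟨fun n a => ⟨fun h => (met_iff_metab a).1 (met_of_cl a h), cl_of_metab n a⟩, ?_⟩
  intro n a hn h
  obtain ⟨U, hU, hc⟩ := (met_iff_metab a).1 (met_of_cl a h)
  have hU0 : U ≠ ⊥ := by
    rintro rfl
    rw [finrank_bot] at hc
    omega
  obtain ⟨x, hx, hx0⟩ := Submodule.exists_mem_ne_zero_of_ne_bot hU0
  exact ⟨x, hx0, hU x hx⟩

end Pool.Agent.Helper86.W4
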