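import Pool.Agent.Helper40.W4.Spec

/-!
# W4, part WVAL: classes of diagonal forms
-/

set_option autoImplicit false

namespace Pool.Agent.Helper86.W4

open Pool.Agent.Helper40.W4

variable {K : Type} [Field K]

lemma cl_succ {n : ℕ} (a : Fin (n + 1) → Kˣ) : cl a = br (a 0) + cl (fun i => a i.succ) := by
  simp only [cl, Fin.sum_univ_succ]

lemma cl_cons {n : ℕ} (c : Kˣ) (a : Fin n → Kˣ) :
    cl (Fin.cons c a : Fin (n + 1) → Kˣ) = br c + cl a := by
  rw [cl_succ]
  simp [Fin.cons_zero, Fin.cons_succ]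

lemma cl_append {m n : ℕ} (a : Fin m → Kˣ) (b : Fin n → Kˣ) :
    cl (Fin.append a b) = cl a + cl b := by
  simp only [cl, Fin.sum_univ_add, Fin.append_left, Fin.append_right]

lemma cl_neg {n : ℕ} (a : Fin n → Kˣ) : cl (fun i => -a i) = -cl a := by
  simp only [cl, br_neg, Finset.sum_neg_distrib]

lemma exists_cl (ξ : W K) : ∃ (n : ℕ) (a : Fin n → Kˣ), ξ = cl a := by
  refine W_induction (P := fun ξ => ∃ (n : ℕ) (a : Fin n → Kˣ), ξ = cl a) ?_ ?_ ?_ ?_ ξ
  · intro a
    exact ⟨1, fun _ => a, by simp [cl]⟩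
  · exact ⟨0, Fin.elim0, by simp [cl]⟩
  · rintro x y ⟨m, a, rfl⟩ ⟨n, b, rfl⟩
    exact ⟨m + n, Fin.append a b, (cl_append a b).symm⟩
  · rintro x ⟨m, a, rfl⟩
    exact ⟨m, fun i => -a i, (cl_neg a).symm⟩

lemma br_of_eq {a v : Kˣ} {x : K} (h : (a : K) * x ^ 2 = v) : br a = br v := by
  have hx : x ≠ 0 := by
    rintro rfl
    apply v.ne_zero
    rw [← h]; ring
  have : v = a * (Units.mk0 x hx) ^ 2 := by
    ext
    simp [h]
  rw [this, br_mul_sq]

lemma value_extraction (n : ℕ) : ∀ (a : Fin (n + 1) → Kˣ) (x : Fin (n + 1) → K) (v : Kˣ),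
      ∑ i, (a i : K) * x i ^ 2 = v → ∃ b : Fin n → Kˣ, cl a = br v + cl b := by
  induction n with
  | zero =>
    intro a x v h
    refine ⟨Fin.elim0, ?_⟩
    have h' : (a 0 : K) * x 0 ^ 2 = v := by simpa using h
    rw [cl_succ, br_of_eq h']
    simp [cl]
  | succ n ih =>
    intro a x v h
    rw [Fin.sum_univ_succ] at h
    by_cases ht : ∑ i : Fin (n + 1), (a i.succ : K) * x i.succ ^ 2 = 0
    · rw [ht, add_zero] at h
      refine ⟨fun i => a i.succ, ?_⟩
      rw [cl_succ, br_of_eq h]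
    · obtain ⟨b', hb'⟩ := ih (fun i => a i.succ) (fun i => x i.succ) (Units.mk0 _ ht) rfl
      by_cases hx : x 0 = 0
      · refine ⟨Fin.cons (a 0) b', ?_⟩
        have hv : v = Units.mk0 _ ht := by
          ext
          rw [← h, hx]
          simp
        rw [cl_succ, hb', cl_cons, hv]
        ring
      · have hs : (a 0 : K) * x 0 ^ 2 ≠ 0 := mul_ne_zero (a 0).ne_zero (pow_ne_zero _ hx)
        refine ⟨Fin.cons (Units.mk0 _ hs * Units.mk0 _ ht * v) b', ?_⟩
        have h1 : br (a 0) = br (Units.mk0 _ hs) := br_of_eq rfl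
        have h2 := br_add (a := Units.mk0 _ hs) (b := Units.mk0 _ ht) (c := v) (by simpa using h)
        rw [cl_succ, hb', cl_cons, h1, ← add_assoc, h2, add_assoc]

lemma cl_succAbove {n : ℕ} (a : Fin (n + 1) → Kˣ) (j : Fin (n + 1)) :
    cl a = br (a j) + cl (fun i => a (j.succAbove i)) := by
  simp only [cl, Fin.sum_univ_succAbove _ j]

theorem wval_thm : S_WVAL := by
  intro K _ _
  refine ⟨exists_cl, value_extraction, ?_⟩
  rintro n a ⟨x, hx, h⟩
  obtain ⟨j, hj⟩ := Function.ne_iff.1 hx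
  have hj' : x j ≠ 0 := hj
  match n, a, x, h, j, hj' with
  | 0, _, _, _, j, _ => exact j.elim0
  | 1, a, x, h, j, hj' =>
    exfalso
    have : j = 0 := Subsingleton.elim _ _
    subst this
    have h' : (a 0 : K) * x 0 ^ 2 = 0 := by simpa using h
    exact mul_ne_zero (a 0).ne_zero (pow_ne_zero _ hj') h'
  | n + 2, a, x, h, j, hj' =>
    rw [Fin.sum_univ_succAbove _ j] at h
    have hs : (a j : K) * x j ^ 2 ≠ 0 := mul_ne_zero (a j).ne_zero (pow_ne_zero _ hj')
    obtain ⟨b, hb⟩ := value_extraction n (fun i => a (j.succAbove i))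
      (fun i => x (j.succAbove i)) (-Units.mk0 _ hs) (by
        simp only [Units.val_neg, Units.val_mk0]
        linear_combination h)
    refine ⟨n, b, rfl, ?_⟩
    have h1 : br (a j) = br (Units.mk0 _ hs) := br_of_eq rfl
    rw [cl_succAbove a j, hb, br_neg, h1]
    ring

end Pool.Agent.Helper86.W4
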